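import Mathlib

namespace Pool.Agent.Results.MP_e87155_co.EveryOrder

open SimpleGraph

variable {V W : Type}

/-- Proper edge colouring: two edges with a common vertex get different colours. -/
def Proper (G : SimpleGraph V) (φ : Sym2 V → ℕ) : Prop :=
  ∀ v a b, a ≠ b → G.Adj v a → G.Adj v b → φ s(v, a) ≠ φ s(v, b)

/-- `G` has a copy of `H` whose edges have distinct colours. -/
def Rainbow (H : SimpleGraph W) (G : SimpleGraph V) (φ : Sym2 V → ℕ) : Prop :=
  ∃ f : H.Copy G, Set.InjOn (fun e => φ (e.map f)) H.edgeSet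

/-- `G` is `H`-saturated. -/
def Sat (H : SimpleGraph W) (G : SimpleGraph V) : Prop :=
  ¬ H.IsContained G ∧ ∀ u v, u ≠ v → ¬ G.Adj u v → H.IsContained (G ⊔ edge u v)

/-- `G` is rainbow `H`-saturated. -/
def RSat (H : SimpleGraph W) (G : SimpleGraph V) : Prop :=
  (∃ φ, Proper G φ ∧ ¬ Rainbow H G φ) ∧
    ∀ u v, u ≠ v → ¬ G.Adj u v → ∀ φ, Proper (G ⊔ edge u v) φ → Rainbow H (G ⊔ edge u v) φ

/-- The saturation number. -/
noncomputable def sat (n : ℕ) (H : SimpleGraph W) : ℕ :=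
  sInf {m | ∃ G : SimpleGraph (Fin n), Sat H G ∧ G.edgeSet.ncard = m}

/-- The rainbow saturation number. -/
noncomputable def rsat (n : ℕ) (H : SimpleGraph W) : ℕ :=
  sInf {m | ∃ G : SimpleGraph (Fin n), RSat H G ∧ G.edgeSet.ncard = m}

def HH : SimpleGraph (Fin 6) := fromRel fun a b => a.val + 1 = b.val ∧ a.val ≠ 3

instance : DecidableRel HH.Adj := fun a b => by unfold HH; rw [fromRel_adj]; infer_instance

lemma HH_adj : ∀ a b : Fin 6, HH.Adj a b → s(a, b) = s(0, 1) ∨ s(a, b) = s(1, 2) ∨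
    s(a, b) = s(2, 3) ∨ s(a, b) = s(4, 5) := by decide

def Cp (G : SimpleGraph V) (v : Fin 6 → V) : Prop :=
  Function.Injective v ∧ G.Adj (v 0) (v 1) ∧ G.Adj (v 1) (v 2) ∧ G.Adj (v 2) (v 3) ∧
    G.Adj (v 4) (v 5)

def Cp.copy {G : SimpleGraph V} {v : Fin 6 → V} (h : Cp G v) : HH.Copy G where
  toHom := ⟨v, fun {a b} hab => by
    have : s(v a, v b) ∈ G.edgeSet := by
      rw [← Sym2.map_mk v]
      rcases HH_adj a b hab with e | e | e | e <;> rw [e]
      exacts [h.2.1, h.2.2.1, h.2.2.2.1, h.2.2.2.2]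
    exact this⟩
  injective' := h.1

lemma cp_of (G : SimpleGraph V) (f : HH.Copy G) : Cp G f :=
  ⟨f.injective, f.toHom.map_rel (by decide), f.toHom.map_rel (by decide),
    f.toHom.map_rel (by decide), f.toHom.map_rel (by decide)⟩

lemma rainbow_of {G : SimpleGraph V} {v : Fin 6 → V} (h : Cp G v) (φ : Sym2 V → ℕ)
    (hφ : Proper G φ) (h1 : φ s(v 0, v 1) ≠ φ s(v 2, v 3)) (h2 : φ s(v 0, v 1) ≠ φ s(v 4, v 5))
    (h3 : φ s(v 1, v 2) ≠ φ s(v 4, v 5)) (h4 : φ s(v 2, v 3) ≠ φ s(v 4, v 5)) :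
    Rainbow HH G φ := by
  have h5 : φ s(v 0, v 1) ≠ φ s(v 1, v 2) := by
    rw [Sym2.eq_swap]
    exact hφ _ _ _ (h.1.ne (by decide)) h.2.1.symm h.2.2.1
  have h6 : φ s(v 1, v 2) ≠ φ s(v 2, v 3) := by
    rw [Sym2.eq_swap]
    exact hφ _ _ _ (h.1.ne (by decide)) h.2.2.1.symm h.2.2.2.1
  refine ⟨h.copy, fun x hx y hy hxy => ?_⟩
  induction x using Sym2.ind with | _ a b => ?_
  induction y using Sym2.ind with | _ c d => ?_
  change φ (Sym2.map v s(a, b)) = φ (Sym2.map v s(c, d)) at hxy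
  rcases HH_adj a b hx with e | e | e | e <;> rcases HH_adj c d hy with e' | e' | e' | e' <;>
    rw [e, e'] at hxy ⊢ <;> simp only [Sym2.map_mk] at hxy <;>
    first | rfl | (exfalso; omega)

lemma inj6 {a b c d e f : V} (h : [a, b, c, d, e, f].Nodup) :
    Function.Injective ![a, b, c, d, e, f] := by
  rw [← List.nodup_ofFn]; simpa using h

lemma free {G : SimpleGraph V} (hG : ¬ HH.IsContained G) {a b c d e f : V} (h1 : G.Adj a b)
    (h2 : G.Adj b c) (h3 : G.Adj c d) (h4 : G.Adj e f) : a = c ∨ a = d ∨ b = d ∨ a = e ∨ a = f ∨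
      b = e ∨ b = f ∨ c = e ∨ c = f ∨ d = e ∨ d = f := by
  by_contra hc
  push Not at hc
  refine hG ⟨Cp.copy (v := ![a, b, c, d, e, f]) ⟨inj6 ?_, h1, h2, h3, h4⟩⟩
  have := h1.ne; have := h2.ne; have := h3.ne; have := h4.ne
  simp_all

/-- two disjoint edges avoiding `x` -/
lemma star {G : SimpleGraph V} (hG : Sat HH G) {u x : V} (hu : ∀ y, ¬ G.Adj u y) (hx : x ≠ u) :
    ∃ p q r s, G.Adj p q ∧ G.Adj r s ∧ p ≠ r ∧ p ≠ s ∧ q ≠ r ∧ q ≠ s ∧
      p ≠ x ∧ q ≠ x ∧ r ≠ x ∧ s ≠ x := by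
  obtain ⟨f⟩ := hG.2 x u hx fun h => hu _ h.symm
  obtain ⟨hi, h1, h2, h3, h4⟩ := cp_of _ f
  have hn : ∀ i j : Fin 6, i ≠ j → f i ≠ f j := fun i j h => hi.ne h
  have n01 := hn 0 1 (by decide); have n02 := hn 0 2 (by decide); have n03 := hn 0 3 (by decide)
  have n04 := hn 0 4 (by decide); have n05 := hn 0 5 (by decide); have n12 := hn 1 2 (by decide)
  have n13 := hn 1 3 (by decide); have n14 := hn 1 4 (by decide); have n15 := hn 1 5 (by decide)
  have n23 := hn 2 3 (by decide); have n24 := hn 2 4 (by decide); have n25 := hn 2 5 (by decide)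
  have n34 := hn 3 4 (by decide); have n35 := hn 3 5 (by decide); have n45 := hn 4 5 (by decide)
  generalize f 0 = a at *; generalize f 1 = b at *; generalize f 2 = c at *
  generalize f 3 = d at *; generalize f 4 = e at *; generalize f 5 = g at *
  simp only [sup_adj, edge_adj] at h1 h2 h3 h4
  have u1 := hu b; have u2 := hu c
  rcases h1 with h1 | h1
  · rcases h3 with h3 | h3
    · rcases h4 with h4 | h4
      · rcases h2 with h2 | h2
        · have := free hG.1 h1 h2 h3 h4; grind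
        · have := h1.symm; grind
      · exact ⟨a, b, c, d, h1, h3, by grind⟩
    · rcases h4 with h4 | h4
      · exact ⟨a, b, e, g, h1, h4, by grind⟩
      · grind
  · rcases h3 with h3 | h3
    · rcases h4 with h4 | h4
      · exact ⟨c, d, e, g, h3, h4, by grind⟩
      · grind
    · grind

lemma p4 {G : SimpleGraph V} (hG : Sat HH G) {u x : V} (hu : ∀ y, ¬ G.Adj u y)
    (hx' : ∀ y, ¬ G.Adj x y) (hx : x ≠ u) :
    ∃ a b c d, G.Adj a b ∧ G.Adj b c ∧ G.Adj c d ∧ a ≠ c ∧ a ≠ d ∧ b ≠ d := by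
  obtain ⟨f⟩ := hG.2 x u hx fun h => hu _ h.symm
  obtain ⟨hi, h1, h2, h3, h4⟩ := cp_of _ f
  have hn : ∀ i j : Fin 6, i ≠ j → f i ≠ f j := fun i j h => hi.ne h
  have n02 := hn 0 2 (by decide); have n03 := hn 0 3 (by decide); have n13 := hn 1 3 (by decide)
  have n01 := hn 0 1 (by decide); have n12 := hn 1 2 (by decide); have n23 := hn 2 3 (by decide)
  generalize f 0 = a at *; generalize f 1 = b at *; generalize f 2 = c at *
  generalize f 3 = d at *
  simp only [sup_adj, edge_adj] at h1 h2 h3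
  have k : ∀ p q, G.Adj p q → p ≠ u ∧ p ≠ x ∧ q ≠ u ∧ q ≠ x := fun p q h =>
    ⟨fun e => hu q (e ▸ h), fun e => hx' q (e ▸ h), fun e => hu p (e ▸ h.symm),
      fun e => hx' p (e ▸ h.symm)⟩
  have k1 := k a b; have k2 := k b c; have k3 := k c d
  exact ⟨a, b, c, d, by grind⟩

lemma five {G : SimpleGraph V} (hG : Sat HH G) {u x : V} (hu : ∀ y, ¬ G.Adj u y)
    (hx' : ∀ y, ¬ G.Adj x y) (hx : x ≠ u) :
    ∃ v : Fin 5 → V, Function.Injective v ∧ ∀ z y, G.Adj z y → z ∈ Set.range v := by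
  obtain ⟨a, b, c, d, hab, hbc, hcd, hac, had, hbd⟩ := p4 hG hu hx' hx
  have nu : ∀ p q, G.Adj p q → p ≠ u := fun p q h e => hu q (e ▸ h)
  have M0 : ∀ p q r s t w, G.Adj p q → G.Adj r s → G.Adj t w → G.Adj q r →
      p = r ∨ p = s ∨ q = s ∨ p = t ∨ p = w ∨ q = t ∨ q = w ∨ r = t ∨ r = w ∨ s = t ∨ s = w :=
    fun p q r s t w h1 h2 h3 h4 => free hG.1 h1 h4 h2 h3
  have cov : ∀ p q, G.Adj p q → ∃ p' q', G.Adj p' q' ∧ (p' = p ∧ q' = q ∨ p' = q ∧ q' = p) ∧
      (p' = a ∨ p' = b ∨ p' = c ∨ p' = d) := fun p q h => by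
    have := free hG.1 hab hbc hcd h
    by_cases h' : p = a ∨ p = b ∨ p = c ∨ p = d
    · exact ⟨p, q, h, Or.inl ⟨rfl, rfl⟩, h'⟩
    · exact ⟨q, p, h.symm, Or.inr ⟨rfl, rfl⟩, by grind⟩
  have M : ∀ p q r s t w, G.Adj p q → G.Adj r s → G.Adj t w →
      p = r ∨ p = s ∨ q = r ∨ q = s ∨ p = t ∨ p = w ∨ q = t ∨ q = w ∨ r = t ∨ r = w ∨
        s = t ∨ s = w := by
    intro p q r s t w h1 h2 h3
    by_contra hc
    push Not at hc
    obtain ⟨p', q', g1, e1, c1⟩ := cov p q h1
    obtain ⟨r', s', g2, e2, c2⟩ := cov r s h2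
    obtain ⟨t', w', g3, e3, c3⟩ := cov t w h3
    have D : p' ≠ r' ∧ p' ≠ s' ∧ q' ≠ r' ∧ q' ≠ s' ∧ p' ≠ t' ∧ p' ≠ w' ∧ q' ≠ t' ∧ q' ≠ w' ∧
        r' ≠ t' ∧ r' ≠ w' ∧ s' ≠ t' ∧ s' ≠ w' := by grind
    have A1 : ¬ G.Adj p' r' := fun h => by have := M0 _ _ _ _ _ _ g1.symm g2 g3 h; grind
    have A2 : ¬ G.Adj p' t' := fun h => by have := M0 _ _ _ _ _ _ g1.symm g3 g2 h; grind
    have A3 : ¬ G.Adj r' t' := fun h => by have := M0 _ _ _ _ _ _ g2.symm g3 g1 h; grind
    have := hab.symm; have := hbc.symm; have := hcd.symm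
    clear e1 e2 e3 hc cov M0
    grind
  have key : ∀ o z y w : V, o ≠ u → G.Adj o z → G.Adj o y → G.Adj o w → z ≠ y → z ≠ w → y ≠ w →
      G.Adj z y ∨ G.Adj z w ∨ G.Adj y w := by
    intro o z y w ho h1 h2 h3 n1 n2 n3
    obtain ⟨p, q, r, s, g1, g2, D⟩ := star hG hu ho
    have a1 := M _ _ _ _ _ _ g1 g2 h1
    have a2 := M _ _ _ _ _ _ g1 g2 h2
    have a3 := M _ _ _ _ _ _ g1 g2 h3
    have := g1.symm; have := g2.symm
    clear M M0 cov
    grind
  obtain ⟨p, q, r, s, g1, g2, D⟩ := star hG hu (nu _ _ hbc)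
  have main : ∀ w w' s' t z : V, G.Adj w w' → G.Adj s' t → w ≠ s' → w ≠ t → w' ≠ s' → w' ≠ t →
      w ≠ b → w' ≠ b → s' ≠ b → t ≠ b → G.Adj z w → z ≠ w' → z ≠ s' → z ≠ t → z ≠ b → False := by
    intro w w' s' t z f1 f2 n1 n2 n3 n4 n5 n6 n7 n8 hz m1 m2 m3 m4
    have zw := hz.ne; have ww := f1.ne; have st := f2.ne
    have ab := hab.ne; have bc := hbc.ne; have cd := hcd.ne
    have nb : ∀ y, G.Adj b y → y = w ∨ y = s' ∨ y = t := fun y h => by
      have a1 := M _ _ _ _ _ _ f1 f2 h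
      have a2 := M _ _ _ _ _ _ hz f2 h
      clear M M0 cov key
      grind
    by_cases hbw : G.Adj b w
    · rcases key w z w' b (nu _ _ f1) hz.symm f1 hbw.symm m1 m4 n6 with h | h | h
      · have := M _ _ _ _ _ _ h hbw f2
        clear M M0 cov key nb
        grind
      · have := nb _ h.symm; grind
      · have := nb _ h.symm; grind
    · have a1 := nb _ hab.symm
      have a2 := nb _ hbc
      have a3 := M _ _ _ _ _ _ hcd hab f1
      have a4 := M _ _ _ _ _ _ hcd hab hz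
      have aw : a ≠ w := fun e => hbw (e ▸ hab.symm)
      have cw : c ≠ w := fun e => hbw (e ▸ hbc)
      have dw : d = w := by clear M M0 cov key nb; grind
      subst dw
      rcases key d z w' c (nu _ _ f1) hz.symm f1 hcd.symm m1 (by grind) (by grind) with h | h | h
      · have := M _ _ _ _ _ _ h hcd hab
        clear M M0 cov key nb
        grind
      · have := M _ _ _ _ _ _ h f1 hab
        clear M M0 cov key nb
        grind
      · have := M _ _ _ _ _ _ h hz hab
        clear M M0 cov key nb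
        grind
  have pq := g1.ne; have rs := g2.ne
  refine ⟨![b, p, q, r, s], ?_, fun z y h => ?_⟩
  · rw [← List.nodup_ofFn]
    clear main key M M0 cov
    simp; grind
  · by_contra hz
    have hz' : z ≠ b ∧ z ≠ p ∧ z ≠ q ∧ z ≠ r ∧ z ≠ s :=
      ⟨fun e => hz ⟨0, e.symm⟩, fun e => hz ⟨1, e.symm⟩, fun e => hz ⟨2, e.symm⟩,
        fun e => hz ⟨3, e.symm⟩, fun e => hz ⟨4, e.symm⟩⟩
    have a1 := M _ _ _ _ _ _ g1 g2 h
    have hy : y = p ∨ y = q ∨ y = r ∨ y = s := by clear main key M M0 cov; grind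
    obtain ⟨D1, D2, D3, D4, D5, D6, D7, D8⟩ := D
    obtain ⟨z1, z2, z3, z4, z5⟩ := hz'
    rcases hy with rfl | rfl | rfl | rfl
    · exact main _ _ _ _ z g1 g2 D1 D2 D3 D4 D5 D6 D7 D8 h z3 z4 z5 z1
    · exact main _ _ _ _ z g1.symm g2 D3 D4 D1 D2 D6 D5 D7 D8 h z2 z4 z5 z1
    · exact main _ _ _ _ z g2 g1 D1.symm D3.symm D2.symm D4.symm D7 D8 D5 D6 h z5 z2 z3 z1
    · exact main _ _ _ _ z g2.symm g1 D2.symm D4.symm D1.symm D3.symm D8 D7 D5 D6 h z4 z2 z3 z1

def MM (a b : ℕ) : Prop :=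
  (min a b, max a b) ∈ [(0, 1), (0, 2), (1, 2), (0, 3), (0, 4), (1, 5), (1, 6), (2, 7), (2, 8)]

instance : DecidableRel MM := fun a b => by unfold MM; infer_instance

abbrev M1 (i j : ℕ) (a b : Fin 11) : Prop :=
  MM a b ∨ a.val = i ∧ b.val = j ∨ a.val = j ∧ b.val = i

lemma core (c : Fin 11 → Fin 11 → ℕ) (hs : ∀ a b, c a b = c b a) (i j : ℕ) (hi : i < 11) (hj : j < 11)
    (hij : i < j ∧ ¬ MM i j)
    (pr : ∀ v a b, (a ≠ b ∧ M1 i j v a ∧ M1 i j v b) → c v a ≠ c v b)
    (nr : ∀ a b d e f g : Fin 11, ([a, b, d, e, f, g].Nodup ∧ M1 i j a b ∧ M1 i j b d ∧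
      M1 i j d e ∧ M1 i j f g) → c a b = c d e ∨ c a b = c f g ∨ c b d = c f g ∨ c d e = c f g) :
    False := by
  have pr0 : ∀ v a b : Fin 11, (a ≠ b ∧ MM v a ∧ MM v b) → c v a ≠ c v b :=
    fun v a b h => pr v a b ⟨h.1, Or.inl h.2.1, Or.inl h.2.2⟩
  have nr0 : ∀ a b d e f g : Fin 11, ([a, b, d, e, f, g].Nodup ∧ MM a b ∧ MM b d ∧
      MM d e ∧ MM f g) → c a b = c d e ∨ c a b = c f g ∨ c b d = c f g ∨ c d e = c f g :=
    fun a b d e f g h => nr a b d e f g
      ⟨h.1, Or.inl h.2.1, Or.inl h.2.2.1, Or.inl h.2.2.2.1, Or.inl h.2.2.2.2⟩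
  have := hs 0 1
  have := hs 0 2
  have := hs 1 2
  have := hs 0 3
  have := hs 0 4
  have := hs 1 5
  have := hs 1 6
  have := hs 2 7
  have := hs 2 8
  have := pr0 0 1 2 (by decide)
  have := pr0 0 1 3 (by decide)
  have := pr0 0 1 4 (by decide)
  have := pr0 0 2 3 (by decide)
  have := pr0 0 2 4 (by decide)
  have := pr0 0 3 4 (by decide)
  have := pr0 1 0 2 (by decide)
  have := pr0 1 0 5 (by decide)
  have := pr0 1 0 6 (by decide)
  have := pr0 1 2 5 (by decide)
  have := pr0 1 2 6 (by decide)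
  have := pr0 1 5 6 (by decide)
  have := pr0 2 0 1 (by decide)
  have := pr0 2 0 7 (by decide)
  have := pr0 2 0 8 (by decide)
  have := pr0 2 1 7 (by decide)
  have := pr0 2 1 8 (by decide)
  have := pr0 2 7 8 (by decide)
  have st : (c 0 3 = c 1 5 ∧ c 0 4 = c 1 6 ∨ c 0 3 = c 1 6 ∧ c 0 4 = c 1 5) ∧
      (c 0 3 = c 2 7 ∧ c 0 4 = c 2 8 ∨ c 0 3 = c 2 8 ∧ c 0 4 = c 2 7) := by
    have := nr0 4 0 1 5 2 7 (by decide)
    have := nr0 4 0 1 5 2 8 (by decide)
    have := nr0 4 0 1 6 2 7 (by decide)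
    have := nr0 4 0 1 6 2 8 (by decide)
    have := nr0 4 0 2 7 1 5 (by decide)
    have := nr0 4 0 2 7 1 6 (by decide)
    have := nr0 4 0 2 8 1 5 (by decide)
    have := nr0 4 0 2 8 1 6 (by decide)
    have := nr0 6 1 2 7 0 3 (by decide)
    have := nr0 6 1 2 7 0 4 (by decide)
    have := nr0 6 1 2 8 0 3 (by decide)
    have := nr0 6 1 2 8 0 4 (by decide)
    have := nr0 5 1 2 7 0 3 (by decide)
    have := nr0 5 1 2 7 0 4 (by decide)
    have := nr0 5 1 2 8 0 3 (by decide)
    have := nr0 5 1 2 8 0 4 (by decide)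
    have := nr0 3 0 1 5 2 7 (by decide)
    have := nr0 3 0 1 5 2 8 (by decide)
    have := nr0 3 0 1 6 2 7 (by decide)
    have := nr0 3 0 1 6 2 8 (by decide)
    have := nr0 3 0 2 7 1 5 (by decide)
    have := nr0 3 0 2 7 1 6 (by decide)
    have := nr0 3 0 2 8 1 5 (by decide)
    have := nr0 3 0 2 8 1 6 (by decide)
    clear nr0 nr pr hs pr0
    grind (splits := 80)
  clear nr0 pr0
  interval_cases i <;> interval_cases j <;> try (exact absurd hij (by decide))
  · have := hs 0 5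
    have := pr 0 1 5 (by decide)
    have := pr 0 2 5 (by decide)
    have := pr 0 3 5 (by decide)
    have := pr 0 4 5 (by decide)
    have := nr 5 0 1 6 2 7 (by decide)
    have := nr 5 0 1 6 2 8 (by decide)
    clear nr pr hs
    grind (splits := 40)
  · have := hs 0 6
    have := pr 0 1 6 (by decide)
    have := pr 0 2 6 (by decide)
    have := pr 0 3 6 (by decide)
    have := pr 0 4 6 (by decide)
    have := nr 5 1 0 6 2 7 (by decide)
    have := nr 5 1 0 6 2 8 (by decide)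
    clear nr pr hs
    grind (splits := 40)
  · have := hs 0 7
    have := pr 0 1 7 (by decide)
    have := pr 0 2 7 (by decide)
    have := pr 0 3 7 (by decide)
    have := pr 0 4 7 (by decide)
    have := nr 6 1 0 7 2 8 (by decide)
    have := nr 7 0 2 8 1 5 (by decide)
    clear nr pr hs
    grind (splits := 40)
  · have := hs 0 8
    have := pr 0 1 8 (by decide)
    have := pr 0 2 8 (by decide)
    have := pr 0 3 8 (by decide)
    have := pr 0 4 8 (by decide)
    have := nr 6 1 0 8 2 7 (by decide)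
    have := nr 5 1 0 8 2 7 (by decide)
    clear nr pr hs
    grind (splits := 40)
  · have := hs 0 9
    have := pr 0 1 9 (by decide)
    have := pr 0 2 9 (by decide)
    have := pr 0 3 9 (by decide)
    have := pr 0 4 9 (by decide)
    have := nr 6 1 0 9 2 7 (by decide)
    have := nr 6 1 0 9 2 8 (by decide)
    clear nr pr hs
    grind (splits := 40)
  · have := hs 0 10
    have := pr 0 1 10 (by decide)
    have := pr 0 2 10 (by decide)
    have := pr 0 3 10 (by decide)
    have := pr 0 4 10 (by decide)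
    have := nr 6 1 0 10 2 7 (by decide)
    have := nr 6 1 0 10 2 8 (by decide)
    clear nr pr hs
    grind (splits := 40)
  · have := hs 1 3
    have := pr 1 0 3 (by decide)
    have := pr 3 0 1 (by decide)
    have := pr 1 2 3 (by decide)
    have := pr 1 5 3 (by decide)
    have := pr 1 6 3 (by decide)
    have := nr 3 1 0 4 2 7 (by decide)
    have := nr 3 1 0 4 2 8 (by decide)
    clear nr pr hs
    grind (splits := 40)
  · have := hs 1 4
    have := pr 1 0 4 (by decide)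
    have := pr 4 0 1 (by decide)
    have := pr 1 2 4 (by decide)
    have := pr 1 5 4 (by decide)
    have := pr 1 6 4 (by decide)
    have := nr 4 1 2 7 0 3 (by decide)
    have := nr 4 1 2 8 0 3 (by decide)
    clear nr pr hs
    grind (splits := 40)
  · have := hs 1 7
    have := pr 1 0 7 (by decide)
    have := pr 1 2 7 (by decide)
    have := pr 1 5 7 (by decide)
    have := pr 1 6 7 (by decide)
    have := nr 4 0 1 7 2 8 (by decide)
    have := nr 7 1 2 8 0 3 (by decide)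
    clear nr pr hs
    grind (splits := 40)
  · have := hs 1 8
    have := pr 1 0 8 (by decide)
    have := pr 1 2 8 (by decide)
    have := pr 1 5 8 (by decide)
    have := pr 1 6 8 (by decide)
    have := nr 4 0 1 8 2 7 (by decide)
    have := nr 3 0 1 8 2 7 (by decide)
    clear nr pr hs
    grind (splits := 40)
  · have := hs 1 9
    have := pr 1 0 9 (by decide)
    have := pr 1 2 9 (by decide)
    have := pr 1 5 9 (by decide)
    have := pr 1 6 9 (by decide)
    have := nr 4 0 1 9 2 7 (by decide)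
    have := nr 4 0 1 9 2 8 (by decide)
    clear nr pr hs
    grind (splits := 40)
  · have := hs 1 10
    have := pr 1 0 10 (by decide)
    have := pr 1 2 10 (by decide)
    have := pr 1 5 10 (by decide)
    have := pr 1 6 10 (by decide)
    have := nr 4 0 1 10 2 7 (by decide)
    have := nr 4 0 1 10 2 8 (by decide)
    clear nr pr hs
    grind (splits := 40)
  · have := hs 2 3
    have := pr 2 0 3 (by decide)
    have := pr 3 0 2 (by decide)
    have := pr 2 1 3 (by decide)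
    have := pr 2 7 3 (by decide)
    have := pr 2 8 3 (by decide)
    have := nr 3 2 0 4 1 5 (by decide)
    have := nr 3 2 0 4 1 6 (by decide)
    clear nr pr hs
    grind (splits := 40)
  · have := hs 2 4
    have := pr 2 0 4 (by decide)
    have := pr 4 0 2 (by decide)
    have := pr 2 1 4 (by decide)
    have := pr 2 7 4 (by decide)
    have := pr 2 8 4 (by decide)
    have := nr 4 2 1 5 0 3 (by decide)
    have := nr 4 2 1 6 0 3 (by decide)
    clear nr pr hs
    grind (splits := 40)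
  · have := hs 2 5
    have := pr 2 0 5 (by decide)
    have := pr 2 1 5 (by decide)
    have := pr 5 1 2 (by decide)
    have := pr 2 7 5 (by decide)
    have := pr 2 8 5 (by decide)
    have := nr 4 0 2 5 1 6 (by decide)
    have := nr 5 2 1 6 0 3 (by decide)
    clear nr pr hs
    grind (splits := 40)
  · have := hs 2 6
    have := pr 2 0 6 (by decide)
    have := pr 2 1 6 (by decide)
    have := pr 6 1 2 (by decide)
    have := pr 2 7 6 (by decide)
    have := pr 2 8 6 (by decide)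
    have := nr 4 0 2 6 1 5 (by decide)
    have := nr 5 1 2 6 0 3 (by decide)
    clear nr pr hs
    grind (splits := 40)
  · have := hs 2 9
    have := pr 2 0 9 (by decide)
    have := pr 2 1 9 (by decide)
    have := pr 2 7 9 (by decide)
    have := pr 2 8 9 (by decide)
    have := nr 4 0 2 9 1 5 (by decide)
    have := nr 4 0 2 9 1 6 (by decide)
    clear nr pr hs
    grind (splits := 40)
  · have := hs 2 10
    have := pr 2 0 10 (by decide)
    have := pr 2 1 10 (by decide)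
    have := pr 2 7 10 (by decide)
    have := pr 2 8 10 (by decide)
    have := nr 4 0 2 10 1 5 (by decide)
    have := nr 4 0 2 10 1 6 (by decide)
    clear nr pr hs
    grind (splits := 40)
  · have := hs 3 4
    have := pr 3 0 4 (by decide)
    have := pr 4 0 3 (by decide)
    have := nr 0 1 2 7 3 4 (by decide)
    have := nr 0 2 1 5 3 4 (by decide)
    have := nr 1 0 2 7 3 4 (by decide)
    clear nr pr hs
    grind (splits := 40)
  · have := hs 3 5
    have := pr 3 0 5 (by decide)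
    have := pr 5 1 3 (by decide)
    have := nr 4 0 3 5 1 2 (by decide)
    have := nr 1 0 2 7 3 5 (by decide)
    have := nr 0 1 2 8 3 5 (by decide)
    clear nr pr hs
    grind (splits := 40)
  · have := hs 3 6
    have := pr 3 0 6 (by decide)
    have := pr 6 1 3 (by decide)
    have := nr 4 0 3 6 1 2 (by decide)
    have := nr 1 0 2 7 3 6 (by decide)
    have := nr 0 1 2 8 3 6 (by decide)
    clear nr pr hs
    grind (splits := 40)
  · have := hs 3 7
    have := pr 3 0 7 (by decide)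
    have := pr 7 2 3 (by decide)
    have := nr 4 0 3 7 1 2 (by decide)
    have := nr 2 0 1 5 3 7 (by decide)
    have := nr 0 2 1 6 3 7 (by decide)
    clear nr pr hs
    grind (splits := 40)
  · have := hs 3 8
    have := pr 3 0 8 (by decide)
    have := pr 8 2 3 (by decide)
    have := nr 4 0 3 8 1 2 (by decide)
    have := nr 2 0 1 5 3 8 (by decide)
    have := nr 0 2 1 6 3 8 (by decide)
    clear nr pr hs
    grind (splits := 40)
  · have := hs 3 9
    have := pr 3 0 9 (by decide)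
    have := nr 4 0 3 9 1 2 (by decide)
    have := nr 1 0 2 7 3 9 (by decide)
    have := nr 0 1 2 8 3 9 (by decide)
    clear nr pr hs
    grind (splits := 40)
  · have := hs 3 10
    have := pr 3 0 10 (by decide)
    have := nr 4 0 3 10 1 2 (by decide)
    have := nr 1 0 2 7 3 10 (by decide)
    have := nr 0 1 2 8 3 10 (by decide)
    clear nr pr hs
    grind (splits := 40)
  · have := hs 4 5
    have := pr 4 0 5 (by decide)
    have := pr 5 1 4 (by decide)
    have := nr 3 0 4 5 1 2 (by decide)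
    have := nr 1 0 2 7 4 5 (by decide)
    have := nr 0 1 2 8 4 5 (by decide)
    clear nr pr hs
    grind (splits := 40)
  · have := hs 4 6
    have := pr 4 0 6 (by decide)
    have := pr 6 1 4 (by decide)
    have := nr 4 6 1 5 0 2 (by decide)
    have := nr 0 1 2 7 4 6 (by decide)
    have := nr 0 1 2 8 4 6 (by decide)
    clear nr pr hs
    grind (splits := 40)
  · have := hs 4 7
    have := pr 4 0 7 (by decide)
    have := pr 7 2 4 (by decide)
    have := nr 4 7 2 8 0 1 (by decide)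
    have := nr 0 2 1 5 4 7 (by decide)
    have := nr 0 2 1 6 4 7 (by decide)
    clear nr pr hs
    grind (splits := 40)
  · have := hs 4 8
    have := pr 4 0 8 (by decide)
    have := pr 8 2 4 (by decide)
    have := nr 3 0 4 8 1 2 (by decide)
    have := nr 2 0 1 5 4 8 (by decide)
    have := nr 0 2 1 6 4 8 (by decide)
    clear nr pr hs
    grind (splits := 40)
  · have := hs 4 9
    have := pr 4 0 9 (by decide)
    have := nr 3 0 4 9 1 2 (by decide)
    have := nr 1 0 2 7 4 9 (by decide)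
    have := nr 0 1 2 8 4 9 (by decide)
    clear nr pr hs
    grind (splits := 40)
  · have := hs 4 10
    have := pr 4 0 10 (by decide)
    have := nr 3 0 4 10 1 2 (by decide)
    have := nr 1 0 2 7 4 10 (by decide)
    have := nr 0 1 2 8 4 10 (by decide)
    clear nr pr hs
    grind (splits := 40)
  · have := hs 5 6
    have := pr 5 1 6 (by decide)
    have := pr 6 1 5 (by decide)
    have := nr 0 1 2 7 5 6 (by decide)
    have := nr 1 2 0 3 5 6 (by decide)
    have := nr 1 0 2 7 5 6 (by decide)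
    clear nr pr hs
    grind (splits := 40)
  · have := hs 5 7
    have := pr 5 1 7 (by decide)
    have := pr 7 2 5 (by decide)
    have := nr 6 1 5 7 0 2 (by decide)
    have := nr 2 1 0 3 5 7 (by decide)
    have := nr 1 2 0 4 5 7 (by decide)
    clear nr pr hs
    grind (splits := 40)
  · have := hs 5 8
    have := pr 5 1 8 (by decide)
    have := pr 8 2 5 (by decide)
    have := nr 6 1 5 8 0 2 (by decide)
    have := nr 2 1 0 3 5 8 (by decide)
    have := nr 1 2 0 4 5 8 (by decide)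
    clear nr pr hs
    grind (splits := 40)
  · have := hs 5 9
    have := pr 5 1 9 (by decide)
    have := nr 6 1 5 9 0 2 (by decide)
    have := nr 0 1 2 7 5 9 (by decide)
    have := nr 0 1 2 8 5 9 (by decide)
    clear nr pr hs
    grind (splits := 40)
  · have := hs 5 10
    have := pr 5 1 10 (by decide)
    have := nr 6 1 5 10 0 2 (by decide)
    have := nr 0 1 2 7 5 10 (by decide)
    have := nr 0 1 2 8 5 10 (by decide)
    clear nr pr hs
    grind (splits := 40)
  · have := hs 6 7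
    have := pr 6 1 7 (by decide)
    have := pr 7 2 6 (by decide)
    have := nr 5 1 6 7 0 2 (by decide)
    have := nr 2 1 0 3 6 7 (by decide)
    have := nr 1 2 0 4 6 7 (by decide)
    clear nr pr hs
    grind (splits := 40)
  · have := hs 6 8
    have := pr 6 1 8 (by decide)
    have := pr 8 2 6 (by decide)
    have := nr 5 1 6 8 0 2 (by decide)
    have := nr 2 1 0 3 6 8 (by decide)
    have := nr 1 2 0 4 6 8 (by decide)
    clear nr pr hs
    grind (splits := 40)
  · have := hs 6 9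
    have := pr 6 1 9 (by decide)
    have := nr 5 1 6 9 0 2 (by decide)
    have := nr 0 1 2 7 6 9 (by decide)
    have := nr 0 1 2 8 6 9 (by decide)
    clear nr pr hs
    grind (splits := 40)
  · have := hs 6 10
    have := pr 6 1 10 (by decide)
    have := nr 5 1 6 10 0 2 (by decide)
    have := nr 0 1 2 7 6 10 (by decide)
    have := nr 0 1 2 8 6 10 (by decide)
    clear nr pr hs
    grind (splits := 40)
  · have := hs 7 8
    have := pr 7 2 8 (by decide)
    have := pr 8 2 7 (by decide)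
    have := nr 1 2 0 3 7 8 (by decide)
    have := nr 4 0 1 5 7 8 (by decide)
    have := nr 4 0 1 6 7 8 (by decide)
    clear nr pr hs
    grind (splits := 40)
  · have := hs 7 9
    have := pr 7 2 9 (by decide)
    have := nr 8 2 7 9 0 1 (by decide)
    have := nr 1 2 0 3 7 9 (by decide)
    have := nr 1 2 0 4 7 9 (by decide)
    clear nr pr hs
    grind (splits := 40)
  · have := hs 7 10
    have := pr 7 2 10 (by decide)
    have := nr 8 2 7 10 0 1 (by decide)
    have := nr 1 2 0 3 7 10 (by decide)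
    have := nr 1 2 0 4 7 10 (by decide)
    clear nr pr hs
    grind (splits := 40)
  · have := hs 8 9
    have := pr 8 2 9 (by decide)
    have := nr 7 2 8 9 0 1 (by decide)
    have := nr 1 2 0 3 8 9 (by decide)
    have := nr 1 2 0 4 8 9 (by decide)
    clear nr pr hs
    grind (splits := 40)
  · have := hs 8 10
    have := pr 8 2 10 (by decide)
    have := nr 7 2 8 10 0 1 (by decide)
    have := nr 1 2 0 3 8 10 (by decide)
    have := nr 1 2 0 4 8 10 (by decide)
    clear nr pr hs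
    grind (splits := 40)
  · have := hs 9 10
    have := nr 0 1 2 7 9 10 (by decide)
    have := nr 1 0 2 8 9 10 (by decide)
    have := nr 1 2 0 3 9 10 (by decide)
    clear nr pr hs
    grind (splits := 40)

lemma model {K : SimpleGraph V} {φ : Sym2 V → ℕ} (hφ : Proper K φ) (g : Fin 11 → V)
    (hg : Function.Injective g) (h : ∀ a b : Fin 11, MM a b → K.Adj (g a) (g b)) (i j : Fin 11)
    (hij : i < j ∧ ¬ MM i j) (he : K.Adj (g i) (g j)) : Rainbow HH K φ := by
  by_contra hR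
  have h1 : ∀ a b, M1 i j a b → K.Adj (g a) (g b) := by
    rintro a b (h' | ⟨e1, e2⟩ | ⟨e1, e2⟩)
    · exact h a b h'
    · rwa [Fin.ext e1, Fin.ext e2]
    · rw [Fin.ext e1, Fin.ext e2]; exact he.symm
  refine core (fun a b => φ s(g a, g b)) (fun a b => by rw [Sym2.eq_swap]) i j i.2 j.2 hij
    (fun v a b H => hφ _ _ _ (hg.ne H.1) (h1 _ _ H.2.1) (h1 _ _ H.2.2)) fun a b d e f w H => ?_
  by_contra hc
  push Not at hc
  exact hR (rainbow_of (v := g ∘ ![a, b, d, e, f, w]) ⟨hg.comp (inj6 H.1), h1 _ _ H.2.1,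
    h1 _ _ H.2.2.1, h1 _ _ H.2.2.2.1, h1 _ _ H.2.2.2.2⟩ φ hφ hc.1 hc.2.1 hc.2.2.1 hc.2.2.2)

lemma MM_lt {a b : ℕ} (h : MM a b) : a < 9 ∧ b < 9 ∧ a ≠ b := by
  simp only [MM, List.mem_cons, Prod.mk.injEq, List.not_mem_nil, or_false] at h
  omega

lemma MM_symm {a b : ℕ} (h : MM a b) : MM b a := by
  unfold MM at *; rwa [min_comm, max_comm]

def GG (n : ℕ) : SimpleGraph (Fin n) where
  Adj a b := MM a b
  symm := ⟨fun _ _ h => MM_symm h⟩
  loopless := ⟨fun _ h => (MM_lt h).2.2 rfl⟩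

def cl (a b : ℕ) : ℕ := if max a b ≤ 2 then a + b else 10 + max a b % 2

def col (n : ℕ) : Sym2 (Fin n) → ℕ :=
  Sym2.lift ⟨fun a b => cl a b, fun a b => by simp only [cl, max_comm, add_comm]⟩

lemma d1 : ∀ v a : Fin 9, MM v a → ∀ b : Fin 9, MM v b → a ≠ b → cl v a ≠ cl v b := by
  decide +kernel

lemma d2 : ∀ a b : Fin 9, MM a b → ∀ c d : Fin 9, MM c d → ∀ e f : Fin 9, MM e f →
    [a, b, c, d, e, f].Nodup → cl a b = cl c d ∨ cl a b = cl e f ∨ cl c d = cl e f := by
  decide +kernel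

lemma GG_rsat (n : ℕ) (hn : 20 ≤ n) : RSat HH (GG n) := by
  refine ⟨⟨col n, fun v a b hab h1 h2 => ?_, ?_⟩, fun x y hxy hna φ hφ => ?_⟩
  · exact d1 ⟨v, (MM_lt h1).1⟩ ⟨a, (MM_lt h1).2.1⟩ h1 ⟨b, (MM_lt h2).2.1⟩ h2
      fun e => hab (Fin.ext (congrArg Fin.val e :))
  · rintro ⟨f, hf⟩
    obtain ⟨hi, h1, -, h3, h4⟩ := cp_of _ f
    have hn : ∀ i j : Fin 6, i ≠ j → (f i).val ≠ (f j).val :=
      fun i j h e => hi.ne h (Fin.ext e)
    have := d2 ⟨f 0, (MM_lt h1).1⟩ ⟨f 1, (MM_lt h1).2.1⟩ h1 ⟨f 2, (MM_lt h3).1⟩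
      ⟨f 3, (MM_lt h3).2.1⟩ h3 ⟨f 4, (MM_lt h4).1⟩ ⟨f 5, (MM_lt h4).2.1⟩ h4 (by
        simp [hn])
    have m1 : s((0 : Fin 6), 1) ∈ HH.edgeSet := (by decide : HH.Adj 0 1)
    have m2 : s((2 : Fin 6), 3) ∈ HH.edgeSet := (by decide : HH.Adj 2 3)
    have m3 : s((4 : Fin 6), 5) ∈ HH.edgeSet := (by decide : HH.Adj 4 5)
    rcases this with h | h | h
    · exact absurd (hf m1 m2 h) (by decide)
    · exact absurd (hf m1 m3 h) (by decide)
    · exact absurd (hf m2 m3 h) (by decide)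
  · obtain ⟨p, q, hp, hq, hpq, hx, hy⟩ : ∃ p q : Fin n, 9 ≤ p.val ∧ 9 ≤ q.val ∧ p.val ≠ q.val ∧
        (x.val < 9 ∨ x = p ∨ x = q) ∧ (y.val < 9 ∨ y = p ∨ y = q) := by
      have hxy' : x.val ≠ y.val := fun e => hxy (Fin.ext e)
      have o : ∀ z : Fin n, ∃ w : Fin n, 9 ≤ w.val ∧ z.val ≠ w.val := fun z => by
        by_cases h : z.val = 9
        · exact ⟨⟨10, by omega⟩, by simp, by simp [h]⟩
        · exact ⟨⟨9, by omega⟩, by simp, h⟩
      by_cases h1 : x.val < 9 <;> by_cases h2 : y.val < 9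
      · exact ⟨⟨9, by omega⟩, ⟨10, by omega⟩, by simp, by simp, by simp, Or.inl h1, Or.inl h2⟩
      · obtain ⟨w, hw, hw'⟩ := o y
        exact ⟨y, w, by omega, hw, hw', Or.inl h1, Or.inr (Or.inl rfl)⟩
      · obtain ⟨w, hw, hw'⟩ := o x
        exact ⟨x, w, by omega, hw, hw', Or.inr (Or.inl rfl), Or.inl h2⟩
      · exact ⟨x, y, by omega, by omega, hxy', Or.inr (Or.inl rfl), Or.inr (Or.inr rfl)⟩
    let g : Fin 11 → Fin n := fun a =>
      if a.val < 9 then ⟨a.val, by omega⟩ else if a.val = 9 then p else q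
    have g1 : ∀ a : Fin 11, a.val < 9 → (g a).val = a.val := fun a h => by simp [g, h]
    have hg : Function.Injective g := fun a b h => by
      have h' := congrArg Fin.val h
      apply Fin.ext
      simp only [g] at h'
      split_ifs at h' <;> (try dsimp only at h') <;> omega
    have hM : ∀ a b : Fin 11, MM a b → (GG n).Adj (g a) (g b) := fun a b h => by
      change MM (g a) (g b)
      rwa [g1 a (MM_lt h).1, g1 b (MM_lt h).2.1]
    have sur : ∀ z : Fin n, (z.val < 9 ∨ z = p ∨ z = q) → ∃ i, g i = z := by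
      rintro z (h | rfl | rfl)
      · exact ⟨⟨z.val, by omega⟩, Fin.ext (g1 _ h)⟩
      · exact ⟨9, rfl⟩
      · exact ⟨10, rfl⟩
    obtain ⟨i, rfl⟩ := sur x hx
    obtain ⟨j, rfl⟩ := sur y hy
    have he : (GG n ⊔ edge (g i) (g j)).Adj (g i) (g j) := Or.inr ((edge_adj _ _ _ _).2 ⟨Or.inl ⟨rfl, rfl⟩, hxy⟩)
    rcases lt_or_gt_of_ne (fun e : i = j => hxy (congrArg g e)) with h | h
    · exact model hφ g hg (fun a b h => Or.inl (hM a b h)) i j ⟨h, fun h => hna (hM _ _ h)⟩ he
    · exact model hφ g hg (fun a b h => Or.inl (hM a b h)) j i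
        ⟨h, fun h => hna (hM _ _ h).symm⟩ he.symm

lemma GG_card (n : ℕ) (hn : 20 ≤ n) : (GG n).edgeSet.ncard ≤ 9 := by
  haveI : NeZero n := ⟨by omega⟩
  let L : List (ℕ × ℕ) := [(0, 1), (0, 2), (1, 2), (0, 3), (0, 4), (1, 5), (1, 6), (2, 7), (2, 8)]
  let F : ℕ × ℕ → Sym2 (Fin n) := fun p => s(Fin.ofNat n p.1, Fin.ofNat n p.2)
  have : (GG n).edgeSet ⊆ ((L.map F).toFinset : Set _) := by
    intro e he
    induction e using Sym2.ind with | _ a b => ?_
    simp only [Finset.mem_coe, List.mem_toFinset, List.mem_map]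
    refine ⟨_, he, ?_⟩
    have o : ∀ z : Fin n, Fin.ofNat n z.val = z := fun z => Fin.ext (Nat.mod_eq_of_lt z.2)
    rcases le_total a.val b.val with h | h
    · simp only [F, min_eq_left h, max_eq_right h, o]
    · simp only [F, min_eq_right h, max_eq_left h, o, Sym2.eq_swap]
  refine (Set.ncard_le_ncard this).trans ?_
  rw [Set.ncard_coe_finset]
  exact (List.toFinset_card_le _).trans (by simp [L])

lemma low {n : ℕ} (hn : 20 ≤ n) (G : SimpleGraph (Fin n)) (hG : Sat HH G) :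
    10 ≤ G.edgeSet.ncard := by
  classical
  by_contra hc
  have hE : G.edgeFinset.card ≤ 9 := by
    rw [← Set.ncard_coe_finset, coe_edgeFinset]; omega
  let T := G.edgeFinset.biUnion Sym2.toFinset
  have hT : T.card ≤ 18 := by
    refine (Finset.card_biUnion_le_card_mul _ _ 2 fun e _ => ?_).trans (by omega)
    rw [Sym2.card_toFinset]; split_ifs <;> omega
  have : 1 < Tᶜ.card := by rw [Finset.card_compl, Fintype.card_fin]; omega
  obtain ⟨x, hx, u, hu, hxu⟩ := Finset.one_lt_card.1 this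
  have iso : ∀ z ∈ Tᶜ, ∀ y, ¬ G.Adj z y := fun z hz y h => Finset.mem_compl.1 hz
    (Finset.mem_biUnion.2 ⟨s(z, y), by simpa using h, by simp⟩)
  obtain ⟨v, hv, hr⟩ := five hG (iso u hu) (iso x hx) hxu
  have full : ∀ i j, i ≠ j → G.Adj (v i) (v j) := by
    intro i j hij
    by_contra hna
    obtain ⟨f⟩ := hG.2 _ _ (hv.ne hij) hna
    have nb : ∀ k : Fin 6, ∃ l, HH.Adj k l := by decide
    have hf : ∀ k, f k ∈ Set.range v := fun k => by
      obtain ⟨l, hl⟩ := nb k
      rcases f.toHom.map_rel hl with h | h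
      · exact hr _ _ h
      · rcases ((edge_adj _ _ _ _).1 h).1 with h | h
        · exact ⟨i, h.1.symm⟩
        · exact ⟨j, h.1.symm⟩
    choose w hw using hf
    have := Fintype.card_le_of_injective w fun a b h => f.injective ((hw a).symm.trans ((congrArg v h).trans (hw b)))
    simp at this
  have sub : Sym2.map v '' ((⊤ : SimpleGraph (Fin 5)).edgeFinset : Set _) ⊆ G.edgeSet := by
    rintro _ ⟨e, he, rfl⟩
    induction e using Sym2.ind with | _ a b => ?_
    exact full a b (by simpa using he)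
  have := Set.ncard_le_ncard sub
  rw [Set.ncard_image_of_injective _ (Sym2.map.injective hv), Set.ncard_coe_finset,
    card_edgeFinset_top_eq_card_choose_two] at this
  exact hc this

/-- The disjoint union of `P₄ ∪ K₂` and `s` isolated vertices. -/
def pad (s : ℕ) : SimpleGraph (Fin (6 + s)) := HH.map (Fin.castAddEmb s)

lemma extend {n s : ℕ} (hn : 6 + s ≤ n) (f : Fin 6 → Fin n) (hf : Function.Injective f) :
    ∃ g : Fin (6 + s) → Fin n, Function.Injective g ∧ ∀ i, g (Fin.castAdd s i) = f i := by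
  classical
  have hc : Fintype.card (Fin s) ≤ Fintype.card {x : Fin n // x ∉ Set.range f} := by
    have h1 := Fintype.card_subtype_compl (fun x : Fin n => x ∈ Set.range f)
    have h2 : Fintype.card {x : Fin n // x ∈ Set.range f} = 6 := by
      rw [← Fintype.card_congr (Equiv.ofInjective f hf)]
      simp
    rw [h2] at h1
    rw [h1]
    simp
    omega
  obtain ⟨g⟩ := Function.Embedding.nonempty_of_card_le hc
  refine ⟨Fin.addCases f fun j => (g j : Fin n), ?_, fun i => by simp⟩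
  intro i j
  refine Fin.addCases (fun i => ?_) (fun i => ?_) i <;>
    refine Fin.addCases (fun j => ?_) (fun j => ?_) j <;>
      simp only [Fin.addCases_left, Fin.addCases_right] <;> intro h
  · rw [hf h]
  · exact absurd ⟨i, h⟩ (g j).2
  · exact absurd ⟨j, h.symm⟩ (g i).2
  · rw [g.injective (Subtype.ext h)]

/-- The copy of `P₄ ∪ K₂` in `pad s`. -/
def inc (s : ℕ) : HH.Copy (pad s) where
  toHom := ⟨Fin.castAddEmb s, fun {a b} h => (map_adj _ _ _ _).2 ⟨a, b, h, rfl, rfl⟩⟩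
  injective' := (Fin.castAddEmb s).injective

lemma exists_pad_copy {n s : ℕ} (hn : 6 + s ≤ n) {G : SimpleGraph (Fin n)} (f : HH.Copy G) :
    ∃ g : (pad s).Copy G, ∀ i, g (Fin.castAdd s i) = f i := by
  obtain ⟨g, hg, h⟩ := extend hn f f.injective
  refine ⟨⟨⟨g, fun {a b} hab => ?_⟩, hg⟩, h⟩
  obtain ⟨a', b', h', rfl, rfl⟩ := (map_adj _ _ _ _).1 hab
  change G.Adj (g (Fin.castAdd s a')) (g (Fin.castAdd s b'))
  rw [h, h]
  exact f.toHom.map_rel h'

lemma contained_pad {n s : ℕ} (hn : 6 + s ≤ n) {G : SimpleGraph (Fin n)} :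
    (pad s).IsContained G ↔ HH.IsContained G :=
  ⟨fun ⟨f⟩ => ⟨f.comp (inc s)⟩, fun ⟨f⟩ => let ⟨g, _⟩ := exists_pad_copy hn f; ⟨g⟩⟩

lemma rainbow_pad {n s : ℕ} (hn : 6 + s ≤ n) {G : SimpleGraph (Fin n)} {φ : Sym2 (Fin n) → ℕ} :
    Rainbow (pad s) G φ ↔ Rainbow HH G φ := by
  have hE : (pad s).edgeSet = Sym2.map (Fin.castAdd s) '' HH.edgeSet := by
    rw [pad, edgeSet_map]
    rfl
  constructor
  · rintro ⟨f, hf⟩
    refine ⟨f.comp (inc s), ?_⟩
    intro e he e' he' hee
    have key : ∀ e : Sym2 (Fin 6), e.map (f.comp (inc s)) = (e.map (Fin.castAdd s)).map f := by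
      intro e
      rw [Sym2.map_map]
      rfl
    simp only [key] at hee
    have := hf (hE ▸ Set.mem_image_of_mem _ he) (hE ▸ Set.mem_image_of_mem _ he') hee
    exact Sym2.map.injective (Fin.castAdd_injective 6 s) this
  · rintro ⟨f, hf⟩
    obtain ⟨g, hg⟩ := exists_pad_copy hn f
    refine ⟨g, ?_⟩
    rw [hE]
    have key : ∀ e : Sym2 (Fin 6), (e.map (Fin.castAdd s)).map g = e.map f := by
      intro e
      rw [Sym2.map_map]
      congr 1
      funext i
      exact hg i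
    rintro _ ⟨e, he, rfl⟩ _ ⟨e', he', rfl⟩ hee
    simp only [key] at hee
    rw [hf he he' hee]

lemma sat_pad {n s : ℕ} (hn : 6 + s ≤ n) (G : SimpleGraph (Fin n)) :
    Sat (pad s) G ↔ Sat HH G := by
  simp only [Sat, contained_pad hn]

lemma rsat_pad {n s : ℕ} (hn : 6 + s ≤ n) (G : SimpleGraph (Fin n)) :
    RSat (pad s) G ↔ RSat HH G := by
  simp only [RSat, rainbow_pad hn]

/-- For all `s` and all `n ≥ max (20, 6 + s)` the graph `H` which is the disjoint union of a path with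
four vertices, an edge and `s` isolated vertices satisfies `sat*(n, H) ≤ 9` and `sat(n, H) ≥ 10`;
hence for every `k ≥ 6` there is a graph with `k` vertices as in the question. -/
theorem result :
    (∀ s n : ℕ, 20 ≤ n → 6 + s ≤ n → (∃ G : SimpleGraph (Fin n), RSat (pad s) G) ∧
      (∃ G : SimpleGraph (Fin n), Sat (pad s) G) ∧ rsat n (pad s) ≤ 9 ∧ 10 ≤ sat n (pad s)) ∧
    ∀ k : ℕ, 6 ≤ k → ∃ H : SimpleGraph (Fin k), H ≠ ⊥ ∧ ∃ N, ∀ n ≥ N,
      (∃ G : SimpleGraph (Fin n), RSat H G) ∧ (∃ G : SimpleGraph (Fin n), Sat H G) ∧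
        rsat n H < sat n H := by
  have h01 : HH.Adj 0 1 := by decide
  have main : ∀ s n : ℕ, 20 ≤ n → 6 + s ≤ n → (∃ G : SimpleGraph (Fin n), RSat (pad s) G) ∧
      (∃ G : SimpleGraph (Fin n), Sat (pad s) G) ∧ rsat n (pad s) ≤ 9 ∧ 10 ≤ sat n (pad s) := by
    intro s n hn hs
    have hR := (rsat_pad hs _).2 (GG_rsat n hn)
    obtain ⟨G, hG⟩ := (Set.toFinite {G : SimpleGraph (Fin n) | ¬ HH.IsContained G}).exists_maximal
      ⟨⊥, fun ⟨f⟩ => f.toHom.map_rel h01⟩
    have hS : Sat HH G := ⟨hG.1, fun u v huv hna => by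
      by_contra hc
      exact hna (hG.2 hc le_sup_left (Or.inr ((edge_adj _ _ _ _).2 ⟨Or.inl ⟨rfl, rfl⟩, huv⟩)))⟩
    have hS' := (sat_pad hs _).2 hS
    refine ⟨⟨_, hR⟩, ⟨_, hS'⟩, le_trans (Nat.sInf_le (s := {m | ∃ G : SimpleGraph (Fin n),
      RSat (pad s) G ∧ G.edgeSet.ncard = m}) ⟨_, hR, rfl⟩) (GG_card n hn), ?_⟩
    obtain ⟨G', hG', e⟩ := Nat.sInf_mem (s := {m | ∃ G : SimpleGraph (Fin n), Sat (pad s) G ∧
      G.edgeSet.ncard = m}) ⟨_, G, hS', rfl⟩
    have h2 := low hn G' ((sat_pad hs _).1 hG')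
    unfold sat
    omega
  refine ⟨main, fun k hk => ?_⟩
  obtain ⟨s, rfl⟩ := Nat.exists_eq_add_of_le hk
  refine ⟨pad s, fun h => ?_, max 20 (6 + s), fun n hn => ?_⟩
  · have h2 : (pad s).Adj (Fin.castAdd s 0) (Fin.castAdd s 1) :=
      (map_adj _ _ _ _).2 ⟨0, 1, h01, rfl, rfl⟩
    rw [h] at h2
    exact h2
  · obtain ⟨h1, h2, h3, h4⟩ := main s n (le_of_max_le_left hn) (le_of_max_le_right hn)
    exact ⟨h1, h2, by omega⟩

end Pool.Agent.Results.MP_e87155_co.EveryOrder
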